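import Mathlib

/-!
# The corner connection tile number is at most the traditional tile number

Both tile sets consist of the same eleven pictures drawn on four connection points which are
numbered `0, 1, 2, 3` counterclockwise. For the traditional tiles these are the midpoints of the
right, top, left and bottom edge of the unit square; for the corner connection tiles they are the
top right, top left, bottom left and bottom right corner of the unit square.

The idea: the midpoints of the edges of the unit grid form a square grid which is turned by 45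
degrees. The four midpoints of the edges of a unit square are the four corners of a square of
the turned grid, and a traditional tile is a corner connection tile on this square. So a
traditional mosaic, turned by 45 degrees, is a corner connection mosaic (with blank tiles around
the grid points of the old grid), on a larger board, with the same number of non-blank tiles.
-/

namespace Pool.Agent.Results.MP_9b4fc7_gt.CornerLeTraditional

/-- The space `ℝ³`. -/
abbrev E3 : Type := EuclideanSpace ℝ (Fin 3)

/-- The eleven tiles. The four connection points of a tile are numbered `0, 1, 2, 3`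
counterclockwise.
* `blank` is the blank tile;
* `arc k` has one arc, which joins the neighbouring connection points `k` and `k + 1` (mod 4);
* `line false` is the segment which joins the opposite points `0` and `2`, `line true` the
  segment which joins `1` and `3`;
* `arcs false` has the two disjoint arcs `0 - 1` and `2 - 3`, `arcs true` has the two disjoint
  arcs `1 - 2` and `3 - 0`;
* `crossing b` has the segments `0 - 2` and `1 - 3`, which cross at the centre of the tile; the
  segment `0 - 2` is the over-strand for `b = false`, and `1 - 3` is the over-strand for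
  `b = true`. -/
inductive Tile : Type
  | blank
  | arc (k : Fin 4)
  | line (b : Bool)
  | arcs (b : Bool)
  | crossing (b : Bool)

/-- The number (0 or 1) of arc ends of a tile at its connection point `l`. -/
def Tile.ends : Tile → Fin 4 → ℕ
  | .blank, _ => 0
  | .arc k, l => if l = k ∨ l = k + 1 then 1 else 0
  | .line false, l => if l = 0 ∨ l = 2 then 1 else 0
  | .line true, l => if l = 1 ∨ l = 3 then 1 else 0
  | .arcs _, _ => 1
  | .crossing _, _ => 1

/-- The unit vector in the `z`-direction. -/
noncomputable def up : E3 := !₂[0, 0, 1]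

/-- The arc which joins the connection points `P k` and `P (k + 1)` of a tile with centre `c`: it
consists of two segments and bulges into the tile. -/
noncomputable def drawArc (P : Fin 4 → E3) (c : E3) (k : Fin 4) : Set E3 :=
  segment ℝ (P k) (midpoint ℝ c (midpoint ℝ (P k) (P (k + 1)))) ∪
    segment ℝ (midpoint ℝ c (midpoint ℝ (P k) (P (k + 1)))) (P (k + 1))

/-- The strand which joins `P k` to `P (k + 2)` and passes over the centre `c` of the tile, at
height one above it. -/
noncomputable def drawOver (P : Fin 4 → E3) (c : E3) (k : Fin 4) : Set E3 :=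
  segment ℝ (P k) (c + up) ∪ segment ℝ (c + up) (P (k + 2))

/-- The part of the space curve in the tile `T` with connection points `P 0, …, P 3` and centre
`c`. Everything lies in the plane `z = 0`, except for the over-strands of the crossings. -/
noncomputable def Tile.draw (T : Tile) (P : Fin 4 → E3) (c : E3) : Set E3 :=
  match T with
  | .blank => ∅
  | .arc k => drawArc P c k
  | .line false => segment ℝ (P 0) (P 2)
  | .line true => segment ℝ (P 1) (P 3)
  | .arcs false => drawArc P c 0 ∪ drawArc P c 2
  | .arcs true => drawArc P c 1 ∪ drawArc P c 3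
  | .crossing false => drawOver P c 0 ∪ segment ℝ (P 1) (P 3)
  | .crossing true => drawOver P c 1 ∪ segment ℝ (P 0) (P 2)

/-- The centre of the unit square `[i, i+1] × [j, j+1]`. -/
noncomputable def centre (i j : ℤ) : E3 := !₂[(i : ℝ) + 1 / 2, (j : ℝ) + 1 / 2, 0]

/-- The connection points of a traditional tile in the square `[i, i+1] × [j, j+1]`: the midpoints
of the right, top, left and bottom edge. -/
noncomputable def edgeMidpoint (i j : ℤ) : Fin 4 → E3 :=
  ![!₂[(i : ℝ) + 1, (j : ℝ) + 1 / 2, 0], !₂[(i : ℝ) + 1 / 2, (j : ℝ) + 1, 0],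
    !₂[(i : ℝ), (j : ℝ) + 1 / 2, 0], !₂[(i : ℝ) + 1 / 2, (j : ℝ), 0]]

/-- The connection points of a corner connection tile in the square `[i, i+1] × [j, j+1]`: the
top right, top left, bottom left and bottom right corner. -/
noncomputable def corner (i j : ℤ) : Fin 4 → E3 :=
  ![!₂[(i : ℝ) + 1, (j : ℝ) + 1, 0], !₂[(i : ℝ), (j : ℝ) + 1, 0],
    !₂[(i : ℝ), (j : ℝ), 0], !₂[(i : ℝ) + 1, (j : ℝ), 0]]

/-- An `n × n` array of tiles. The tile in column `i` and row `j` (`0 ≤ i, j < n`) lies in the
square `[i, i+1] × [j, j+1]`; outside of the array the plane is blank. -/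
structure Mosaic (n : ℕ) : Type where
  /-- the tile in column `i` and row `j` -/
  tile : ℤ → ℤ → Tile
  /-- there are no tiles outside of the `n × n` array -/
  outside : ∀ i j : ℤ, ¬ (0 ≤ i ∧ i < n ∧ 0 ≤ j ∧ j < n) → tile i j = Tile.blank

/-- The number of non-blank tiles of a mosaic. -/
noncomputable def Mosaic.nonblank {n : ℕ} (M : Mosaic n) : ℕ∞ :=
  Set.encard {p : ℤ × ℤ | M.tile p.1 p.2 ≠ Tile.blank}

/-- The array is a traditional knot mosaic (suitably connected): a connection point of a tile on
an edge is a connection point of the tile across that edge too. As the plane is blank outside of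
the array, no connection point lies on the outer boundary. -/
def Mosaic.TradConnected {n : ℕ} (M : Mosaic n) : Prop :=
  ∀ i j : ℤ, (M.tile i j).ends 0 = (M.tile (i + 1) j).ends 2 ∧
    (M.tile i j).ends 1 = (M.tile i (j + 1)).ends 3

/-- The array is a corner connection knot mosaic (suitably connected): at every grid point
`(i, j)` either 0 or 2 arc ends of the four tiles around it meet. -/
def Mosaic.CornerConnected {n : ℕ} (M : Mosaic n) : Prop :=
  ∀ i j : ℤ,
    (M.tile (i - 1) (j - 1)).ends 0 + (M.tile i (j - 1)).ends 1 + (M.tile i j).ends 2 +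
      (M.tile (i - 1) j).ends 3 = 0 ∨
    (M.tile (i - 1) (j - 1)).ends 0 + (M.tile i (j - 1)).ends 1 + (M.tile i j).ends 2 +
      (M.tile (i - 1) j).ends 3 = 2

/-- The link in `ℝ³` drawn by an array of traditional tiles. -/
noncomputable def Mosaic.tradLink {n : ℕ} (M : Mosaic n) : Set E3 :=
  ⋃ (i : ℤ) (j : ℤ), (M.tile i j).draw (edgeMidpoint i j) (centre i j)

/-- The link in `ℝ³` drawn by an array of corner connection tiles. -/
noncomputable def Mosaic.cornerLink {n : ℕ} (M : Mosaic n) : Set E3 :=
  ⋃ (i : ℤ) (j : ℤ), (M.tile i j).draw (corner i j) (centre i j)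

/-- Two subsets of `ℝ³` are ambient isotopic: there is an isotopy `H_t`, `0 ≤ t ≤ 1`, of
homeomorphisms of `ℝ³`, jointly continuous with its inverse, with `H_0 = id` and `H_1(A) = B`. -/
def AmbientIsotopic (A B : Set E3) : Prop :=
  ∃ H : unitInterval → (E3 ≃ₜ E3),
    Continuous (fun p : unitInterval × E3 => H p.1 p.2) ∧
    Continuous (fun p : unitInterval × E3 => (H p.1).symm p.2) ∧
    H 0 = Homeomorph.refl E3 ∧ (H 1) '' A = B

/-- The traditional tile number `t(K)`: the least number of non-blank tiles in a traditional knot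
mosaic, of any size, which depicts `K` (`⊤` if there is none). -/
noncomputable def tradTileNumber (K : Set E3) : ℕ∞ :=
  sInf {N | ∃ (n : ℕ) (M : Mosaic n), M.TradConnected ∧ AmbientIsotopic M.tradLink K ∧
    N = M.nonblank}

/-- The corner connection tile number `t_cc(K)`: the least number of non-blank tiles in a corner
connection knot mosaic, of any size, which depicts `K` (`⊤` if there is none). -/
noncomputable def cornerTileNumber (K : Set E3) : ℕ∞ :=
  sInf {N | ∃ (n : ℕ) (M : Mosaic n), M.CornerConnected ∧ AmbientIsotopic M.cornerLink K ∧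
    N = M.nonblank}

/-! ## Proof -/

lemma Tile.ends_le (T : Tile) (l : Fin 4) : T.ends l ≤ 1 := by
  rcases T with _ | k | b | b | b
  · simp [Tile.ends]
  · simp only [Tile.ends]; split_ifs <;> simp
  · cases b <;> simp only [Tile.ends] <;> split_ifs <;> simp
  · simp [Tile.ends]
  · simp [Tile.ends]

lemma AmbientIsotopic.trans {A B C : Set E3} (h1 : AmbientIsotopic A B)
    (h2 : AmbientIsotopic B C) : AmbientIsotopic A C := by
  obtain ⟨H, hc, hs, h0, hA⟩ := h1
  obtain ⟨G, gc, gs, g0, gB⟩ := h2
  refine ⟨fun t => (H t).trans (G t), ?_, ?_, ?_, ?_⟩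
  · have : (fun p : unitInterval × E3 => ((H p.1).trans (G p.1)) p.2) =
        (fun p : unitInterval × E3 => G p.1 p.2) ∘ (fun p => (p.1, H p.1 p.2)) := rfl
    rw [this]
    exact gc.comp (continuous_fst.prodMk hc)
  · have : (fun p : unitInterval × E3 => ((H p.1).trans (G p.1)).symm p.2) =
        (fun p : unitInterval × E3 => (H p.1).symm p.2) ∘ (fun p => (p.1, (G p.1).symm p.2)) := rfl
    rw [this]
    exact hs.comp (continuous_fst.prodMk gs)
  · simp only [h0, g0]; rfl
  · change ((G 1) ∘ (H 1)) '' A = C
    rw [Set.image_comp, hA, gB]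

lemma AmbientIsotopic.symm' {A B : Set E3} (h1 : AmbientIsotopic A B) :
    AmbientIsotopic B A := by
  obtain ⟨H, hc, hs, h0, hA⟩ := h1
  refine ⟨fun t => (H t).symm, hs, ?_, ?_, ?_⟩
  · simpa using hc
  · simp only [h0]; rfl
  · rw [← hA, ← Set.image_comp]; simp

/-- The affine map `(x, y, z) ↦ (x - t y + t (n + 1/2), t x + y - t / 2, z)`. -/
noncomputable def turnFun (n : ℕ) (t : ℝ) (p : E3) : E3 :=
  !₂[p 0 - t * p 1 + t * (n + 1 / 2), t * p 0 + p 1 - t / 2, p 2]

/-- Its inverse. -/
noncomputable def turnInv (n : ℕ) (t : ℝ) (p : E3) : E3 :=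
  !₂[((p 0 - t * (n + 1 / 2)) + t * (p 1 + t / 2)) / (1 + t ^ 2),
    ((p 1 + t / 2) - t * (p 0 - t * (n + 1 / 2))) / (1 + t ^ 2), p 2]

lemma turnFun_cont (n : ℕ) : Continuous (fun p : ℝ × E3 => turnFun n p.1 p.2) := by
  unfold turnFun
  refine (PiLp.continuous_toLp 2 _).comp ?_
  refine continuous_pi fun i => ?_
  fin_cases i <;> simp <;> fun_prop

lemma turnInv_cont (n : ℕ) : Continuous (fun p : ℝ × E3 => turnInv n p.1 p.2) := by
  unfold turnInv
  refine (PiLp.continuous_toLp 2 _).comp ?_
  have hne : ∀ t : ℝ, 1 + t ^ 2 ≠ 0 := fun t => by positivity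
  refine continuous_pi fun i => ?_
  fin_cases i
  · simp
    refine Continuous.div ?_ ?_ fun p => hne _ <;> fun_prop
  · simp
    refine Continuous.div ?_ ?_ fun p => hne _ <;> fun_prop
  · simp; fun_prop

lemma turn_left (n : ℕ) (t : ℝ) (p : E3) : turnInv n t (turnFun n t p) = p := by
  have hne : (1 + t ^ 2 : ℝ) ≠ 0 := by positivity
  ext i
  fin_cases i
  · simp [turnInv, turnFun]; field_simp; ring
  · simp [turnInv, turnFun]; field_simp; ring
  · simp [turnInv, turnFun]

lemma turn_right (n : ℕ) (t : ℝ) (p : E3) : turnFun n t (turnInv n t p) = p := by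
  have hne : (1 + t ^ 2 : ℝ) ≠ 0 := by positivity
  ext i
  fin_cases i
  · simp [turnInv, turnFun]; field_simp; ring
  · simp [turnInv, turnFun]; field_simp; ring
  · simp [turnInv, turnFun]

/-- The turning homeomorphism. -/
noncomputable def turn (n : ℕ) (t : ℝ) : E3 ≃ₜ E3 where
  toFun := turnFun n t
  invFun := turnInv n t
  left_inv := turn_left n t
  right_inv := turn_right n t
  continuous_toFun := (turnFun_cont n).comp (Continuous.prodMk_right t)
  continuous_invFun := (turnInv_cont n).comp (Continuous.prodMk_right t)

/-- The final turning map as an affine map. -/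
noncomputable def turnAff (n : ℕ) : E3 →ᵃ[ℝ] E3 where
  toFun := turnFun n 1
  linear :=
    { toFun := fun p => !₂[p 0 - p 1, p 0 + p 1, p 2]
      map_add' := by
        intro x y; ext i; fin_cases i <;> simp <;> ring
      map_smul' := by
        intro a x; ext i; fin_cases i <;> simp <;> ring }
  map_vadd' := by
    intro x y
    ext i; fin_cases i <;> simp [turnFun] <;> ring

lemma isotopic_turn (n : ℕ) (A : Set E3) : AmbientIsotopic A (turnAff n '' A) := by
  refine ⟨fun t => turn n t, ?_, ?_, ?_, rfl⟩
  · exact (turnFun_cont n).comp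
      ((continuous_subtype_val.comp continuous_fst).prodMk continuous_snd)
  · exact (turnInv_cont n).comp
      ((continuous_subtype_val.comp continuous_fst).prodMk continuous_snd)
  · ext p i
    fin_cases i <;> simp [turn, turnFun]

lemma image_drawArc (f : E3 →ᵃ[ℝ] E3) (P : Fin 4 → E3) (c : E3) (k : Fin 4) :
    f '' drawArc P c k = drawArc (f ∘ P) (f c) k := by
  simp only [drawArc, Set.image_union, image_segment, AffineMap.map_midpoint, Function.comp]

lemma image_drawOver (f : E3 →ᵃ[ℝ] E3) (P : Fin 4 → E3) (c : E3) (hf : f (c + up) = f c + up)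
    (k : Fin 4) : f '' drawOver P c k = drawOver (f ∘ P) (f c) k := by
  simp only [drawOver, Set.image_union, image_segment, Function.comp, hf]

lemma image_draw (f : E3 →ᵃ[ℝ] E3) (T : Tile) (P : Fin 4 → E3) (c : E3)
    (hf : f (c + up) = f c + up) : f '' T.draw P c = T.draw (f ∘ P) (f c) := by
  rcases T with _ | k | b | b | b
  · simp [Tile.draw]
  · simp only [Tile.draw, image_drawArc]
  · cases b <;> simp only [Tile.draw, image_segment, Function.comp]
  · cases b <;> simp only [Tile.draw, Set.image_union, image_drawArc]
  · cases b <;> simp only [Tile.draw, Set.image_union, image_drawOver f P c hf, image_segment,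
      Function.comp]

lemma turnAff_up (n : ℕ) (c : E3) : turnAff n (c + up) = turnAff n c + up := by
  ext i
  fin_cases i <;> simp [turnAff, turnFun, up]

lemma turnAff_centre (n : ℕ) (i j : ℤ) :
    turnAff n (centre i j) = centre (i - j + n) (i + j) := by
  ext k
  fin_cases k <;> simp [turnAff, turnFun, centre] <;> ring

lemma turnAff_mid (n : ℕ) (i j : ℤ) :
    turnAff n ∘ (edgeMidpoint i j) = corner (i - j + n) (i + j) := by
  funext l
  ext k
  fin_cases l <;> fin_cases k <;> simp [turnAff, turnFun, corner, edgeMidpoint] <;> ring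

/-- The turned mosaic. -/
def turned {n : ℕ} (M : Mosaic n) : Mosaic (2 * n) where
  tile u v := if (u + v - n) % 2 = 0 then M.tile ((u + v - n) / 2) ((v - u + n) / 2)
    else Tile.blank
  outside u v h := by
    split_ifs with hp
    · apply M.outside
      push_cast at h
      omega
    · rfl

lemma turned_tile {n : ℕ} (M : Mosaic n) (i j : ℤ) :
    (turned M).tile (i - j + n) (i + j) = M.tile i j := by
  have h1 : (i - j + n + (i + j) - n) % 2 = 0 := by omega
  have h2 : (i - j + n + (i + j) - n) / 2 = i := by omega
  have h3 : (i + j - (i - j + n) + n) / 2 = j := by omega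
  simp only [turned, h1, h2, h3, if_true]

lemma turned_eq {n : ℕ} (M : Mosaic n) (u v : ℤ) (i j : ℤ) (hu : u = i - j + n)
    (hv : v = i + j) : (turned M).tile u v = M.tile i j := by
  subst hu; subst hv; exact turned_tile M i j

lemma turned_odd {n : ℕ} (M : Mosaic n) (u v : ℤ) (h : (u + v - n) % 2 ≠ 0) :
    (turned M).tile u v = Tile.blank := by
  simp only [turned, h, if_false]

lemma turned_connected {n : ℕ} (M : Mosaic n) (h : M.TradConnected) :
    (turned M).CornerConnected := by
  intro u v
  by_cases hp : (u + v - n) % 2 = 0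
  · obtain ⟨i, j, hu, hv⟩ : ∃ i j : ℤ, u = i - j + n ∧ v = i + j :=
      ⟨(u + v - n) / 2, (v - u + n) / 2, by omega, by omega⟩
    rw [turned_eq M u v i j hu hv, turned_eq M (u - 1) (v - 1) (i - 1) j (by omega) (by omega),
      turned_odd M u (v - 1) (by omega), turned_odd M (u - 1) v (by omega)]
    have h1 := (h (i - 1) j).1
    rw [sub_add_cancel] at h1
    have h2 := (M.tile i j).ends_le 2
    have h3 : Tile.blank.ends 1 = 0 := rfl
    have h4 : Tile.blank.ends 3 = 0 := rfl
    omega
  · obtain ⟨i, j, hu, hv⟩ : ∃ i j : ℤ, u = i - j + n ∧ v - 1 = i + j :=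
      ⟨(u + v - 1 - n) / 2, (v - 1 - u + n) / 2, by omega, by omega⟩
    rw [turned_eq M u (v - 1) i j hu hv, turned_eq M (u - 1) v i (j + 1) (by omega) (by omega),
      turned_odd M u v hp, turned_odd M (u - 1) (v - 1) (by omega)]
    have h1 := (h i j).2
    have h2 := (M.tile i j).ends_le 1
    have h3 : Tile.blank.ends 0 = 0 := rfl
    have h4 : Tile.blank.ends 2 = 0 := rfl
    omega

lemma turned_link {n : ℕ} (M : Mosaic n) :
    turnAff n '' M.tradLink = (turned M).cornerLink := by
  ext p
  simp only [Mosaic.tradLink, Mosaic.cornerLink, Set.image_iUnion, Set.mem_iUnion]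
  constructor
  · rintro ⟨i, j, h⟩
    refine ⟨i - j + n, i + j, ?_⟩
    rw [image_draw _ _ _ _ (turnAff_up n _), turnAff_mid, turnAff_centre] at h
    rwa [turned_tile]
  · rintro ⟨u, v, h⟩
    by_cases hp : (u + v - n) % 2 = 0
    · obtain ⟨i, j, hu, hv⟩ : ∃ i j : ℤ, u = i - j + n ∧ v = i + j :=
        ⟨(u + v - n) / 2, (v - u + n) / 2, by omega, by omega⟩
      subst hu; subst hv
      refine ⟨i, j, ?_⟩
      rw [image_draw _ _ _ _ (turnAff_up n _), turnAff_mid, turnAff_centre]
      rwa [turned_tile] at h
    · rw [turned_odd M u v hp] at h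
      exact absurd h (by simp [Tile.draw])

lemma turned_nonblank {n : ℕ} (M : Mosaic n) : (turned M).nonblank = M.nonblank := by
  have hinj : Function.Injective (fun p : ℤ × ℤ => (p.1 - p.2 + n, p.1 + p.2)) := by
    rintro ⟨a, b⟩ ⟨c, d⟩ h
    simp only [Prod.mk.injEq] at h ⊢
    omega
  unfold Mosaic.nonblank
  rw [← hinj.encard_image {p : ℤ × ℤ | M.tile p.1 p.2 ≠ Tile.blank}]
  congr 1
  ext ⟨u, v⟩
  simp only [Set.mem_ofPred_eq, Set.mem_image, Prod.exists, Prod.mk.injEq]
  constructor
  · intro h
    have hp : (u + v - n) % 2 = 0 := by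
      by_contra hp
      exact h (turned_odd M u v hp)
    obtain ⟨i, j, hu, hv⟩ : ∃ i j : ℤ, u = i - j + n ∧ v = i + j :=
      ⟨(u + v - n) / 2, (v - u + n) / 2, by omega, by omega⟩
    rw [turned_eq M u v i j hu hv] at h
    exact ⟨i, j, h, hu.symm, hv.symm⟩
  · rintro ⟨i, j, h, hu, hv⟩
    rwa [turned_eq M u v i j hu.symm hv.symm]

/-- For every knot `K` (indeed for every subset of `ℝ³`) the corner connection tile number is at
most the traditional tile number: `t_cc(K) ≤ t(K)`. -/
theorem result : ∀ K : Set E3, cornerTileNumber K ≤ tradTileNumber K := by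
  intro K
  apply le_sInf
  rintro N ⟨n, M, hM, hK, rfl⟩
  apply sInf_le
  refine ⟨2 * n, turned M, turned_connected M hM, ?_, (turned_nonblank M).symm⟩
  rw [← turned_link]
  exact (isotopic_turn n _).symm'.trans hK

end Pool.Agent.Results.MP_9b4fc7_gt.CornerLeTraditional
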